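import Pool.Agent.W23.PP.Defs
import Pool.Agent.W308.PL.FLW

/-!
PP-FLWG (helper85): fundamental lemma of dimension `k`, Brun-Hooley, for all primes `< N^ε₁` and all
densities `g(p) ≤ k/p` (adapted from W347/KS/FLWK and W308/PL/FLW).
-/

set_option autoImplicit false
set_option maxHeartbeats 4000000

open Finset

namespace Pool.Agent.W85.PP.FG

open Pool.Agent.W23.PL hiding St_FLW
open Pool.Agent.W23.DC
open Pool.Agent.W23.PP
open Pool.Agent.W308.PL.FLW hiding core main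
open Pool.Agent.Helper112.LP.Kbh
open Pool.Agent.Helper112.LP.Kba

/-- inclusion-exclusion -/
theorem incl (S : Finset ℕ) (h : ℕ → ℝ) :
    ∑ V ∈ S.powerset, (-1 : ℝ) ^ V.card * ∏ p ∈ V, h p = ∏ p ∈ S, (1 - h p) := by
  have e : ∏ p ∈ S, (1 - h p) = ∏ p ∈ S, (-h p + 1) := by
    apply prod_congr rfl
    intro p _
    ring
  rw [e, prod_add]
  apply sum_congr rfl
  intro V _
  rw [prod_neg, prod_const_one, mul_one]

/-- splitting off the small primes -/
theorem split2 (S Q : Finset ℕ) (hSQ : Disjoint S Q) (c : Finset ℕ → ℝ) (h : ℕ → ℝ) :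
    ∑ U ∈ (S ∪ Q).powerset, ((-1 : ℝ) ^ (U ∩ S).card * c (U ∩ Q)) * ∏ p ∈ U, h p =
      (∏ p ∈ S, (1 - h p)) * ∑ W ∈ Q.powerset, c W * ∏ p ∈ W, h p := by
  have hd : ∀ i j : Fin 2, i ≠ j → Disjoint ((![S, Q] : Fin 2 → Finset ℕ) i)
      ((![S, Q] : Fin 2 → Finset ℕ) j) := by
    intro i j hij
    fin_cases i <;> fin_cases j
    · exact absurd rfl hij
    · exact hSQ
    · exact hSQ.symm
    · exact absurd rfl hij
  have hP : S ∪ Q = univ.biUnion (![S, Q] : Fin 2 → Finset ℕ) := by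
    ext x
    rw [mem_union, mem_biUnion]
    constructor
    · rintro (hx | hx)
      · exact ⟨0, mem_univ _, hx⟩
      · exact ⟨1, mem_univ _, hx⟩
    · rintro ⟨j, -, hj⟩
      fin_cases j
      · exact Or.inl hj
      · exact Or.inr hj
  have h1 := fact (![S, Q] : Fin 2 → Finset ℕ) hd (S ∪ Q) hP
    (![fun V => (-1 : ℝ) ^ V.card, c] : Fin 2 → Finset ℕ → ℝ) h
  rw [Fin.prod_univ_two] at h1
  simp only [Fin.prod_univ_two, Matrix.cons_val_zero, Matrix.cons_val_one] at h1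
  rw [h1, incl]

theorem core {J : ℕ} (Pb : Fin J → Finset ℕ) (b : ℕ)
    (hd : ∀ i j, i ≠ j → Disjoint (Pb i) (Pb j)) (S Q P : Finset ℕ) (hQ : Q = univ.biUnion Pb)
    (hSQ : Disjoint S Q) (hP : P = S ∪ Q) (hSp : ∀ p ∈ S, p.Prime)
    (k : ℕ) (hk2 : ∀ j, ∀ p ∈ Pb j, 2 * k ≤ p) (hprime : ∀ j, ∀ p ∈ Pb j, p.Prime) (L : ℝ)
    (hL : ∀ j, ∑ p ∈ Pb j, (k : ℝ) / p ≤ L) (D D' : ℕ) (hDD : (∏ p ∈ S, p) * D' ≤ D)
    (hlevel : ∀ U ⊆ Q, (∀ j : Fin J, (U ∩ Pb j).card ≤ 2 * (b + j) + 1) → ∏ p ∈ U, p ≤ D')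
    (ρ : ℝ) (hρ1 : ρ ≤ 1)
    (hρ : ∑ j : Fin J, Real.exp (2 * L) * (L ^ (2 * (b + j) + 1) / (2 * (b + j) + 1).factorial) ≤ ρ)
    (U0 : ℝ) (hU1 : 1 ≤ U0) (hUJ : (J : ℝ) ≤ U0) :
    ∃ th dl : ℕ → ℝ, DW P D U0 th ∧ DW P D U0 dl ∧
      (∀ m : ℤ, xx P m ≤ Ev th D m ∧ Ev th D m - xx P m ≤ Ev dl D m) ∧
      ∀ g : ℕ → ℝ, (∀ p ∈ P, 0 ≤ g p ∧ g p ≤ 1 ∧ g p ≤ k / p) →
        |∑ e ∈ Icc 1 D, th e * gm g e - ∏ p ∈ P, (1 - g p)| ≤ 3 * ρ * ∏ p ∈ P, (1 - g p) ∧
        |∑ e ∈ Icc 1 D, dl e * gm g e| ≤ 3 * ρ * ∏ p ∈ P, (1 - g p) := by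
  classical
  have hQp : ∀ p ∈ Q, p.Prime := by
    intro p hp
    rw [hQ] at hp
    obtain ⟨j, -, hj⟩ := mem_biUnion.1 hp
    exact hprime j p hj
  have hPp : ∀ p ∈ P, p.Prime := by
    intro p hp
    rw [hP, mem_union] at hp
    rcases hp with hp | hp
    · exact hSp p hp
    · exact hQp p hp
  have hlev : ∀ U ⊆ P, (∀ j : Fin J, ((U ∩ Q) ∩ Pb j).card ≤ 2 * (b + j) + 1) →
      ∏ p ∈ U, p ≤ D := by
    intro U hU hc
    have h1 : U = (U ∩ S) ∪ (U ∩ Q) := by
      rw [← inter_union_distrib_left, ← hP]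
      exact (inter_eq_left.2 hU).symm
    have h2 : Disjoint (U ∩ S) (U ∩ Q) :=
      disjoint_of_subset_left inter_subset_right (disjoint_of_subset_right inter_subset_right hSQ)
    have h3 : ∏ p ∈ U ∩ S, p ≤ ∏ p ∈ S, p := by
      apply prod_le_prod_of_subset_of_one_le' inter_subset_right
      intro p hp _
      exact (hSp p hp).one_le
    have h4 := hlevel (U ∩ Q) inter_subset_right hc
    calc ∏ p ∈ U, p = ∏ p ∈ (U ∩ S) ∪ (U ∩ Q), p := by rw [← h1]
      _ = (∏ p ∈ U ∩ S, p) * ∏ p ∈ U ∩ Q, p := prod_union h2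
      _ ≤ (∏ p ∈ S, p) * D' := Nat.mul_le_mul h3 h4
      _ ≤ D := hDD
  obtain ⟨C1, hC1d⟩ : ∃ C1 : Finset ℕ → ℝ,
      C1 = fun U => (-1 : ℝ) ^ (U ∩ S).card * Cth Pb b (U ∩ Q) := ⟨_, rfl⟩
  obtain ⟨C2, hC2d⟩ : ∃ C2 : Finset ℕ → ℝ,
      C2 = fun U => (-1 : ℝ) ^ (U ∩ S).card * Cdl Pb b (U ∩ Q) := ⟨_, rfl⟩
  have hC1 : ∀ U ⊆ P, C1 U ≠ 0 → ∏ p ∈ U, p ≤ D := by
    intro U hU h
    rw [hC1d] at h
    exact hlev U hU (Cth_supp Pb b (right_ne_zero_of_mul h))
  have hC2 : ∀ U ⊆ P, C2 U ≠ 0 → ∏ p ∈ U, p ≤ D := by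
    intro U hU h
    rw [hC2d] at h
    exact hlev U hU (Cdl_supp Pb b (right_ne_zero_of_mul h))
  have hC1a : ∀ U, |C1 U| ≤ U0 := by
    intro U
    rw [hC1d]
    simp only
    rw [abs_mul, abs_pow, abs_neg, abs_one, one_pow, one_mul]
    exact (Cth_abs Pb b _).trans hU1
  have hC2a : ∀ U, |C2 U| ≤ U0 := by
    intro U
    rw [hC2d]
    simp only
    rw [abs_mul, abs_pow, abs_neg, abs_one, one_pow, one_mul]
    exact (Cdl_abs Pb b _).trans hUJ
  have hDW : ∀ C : Finset ℕ → ℝ, (∀ U, |C U| ≤ U0) → DW P D U0 (cf P D C) := by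
    intro C hC
    constructor
    · intro e
      unfold cf
      split_ifs
      · exact hC _
      · rw [abs_zero]; linarith
    · intro e he
      unfold cf at he
      split_ifs at he with h
      · refine ⟨h.1, h.2.2, fun p hp hpe => h.2.1 ?_⟩
        rw [Nat.mem_primeFactors]
        exact ⟨hp, hpe, h.1.ne_zero⟩
      · exact absurd rfl he
  -- evaluation
  have hEv : ∀ C : Finset ℕ → ℝ, (∀ U ⊆ P, C U ≠ 0 → ∏ p ∈ U, p ≤ D) → ∀ m : ℤ,
      Ev (cf P D C) D m = ∑ U ∈ P.powerset, C U * ∏ p ∈ U, (if p ∣ m.natAbs then (1 : ℝ) else 0) := by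
    intro C hC m
    unfold Ev
    apply cf_sum P hPp D C hC
    intro U hU
    exact dvd_ite_prod U (fun p hp => hPp p (hU hp)) m
  have hhat : ∀ C : Finset ℕ → ℝ, (∀ U ⊆ P, C U ≠ 0 → ∏ p ∈ U, p ≤ D) → ∀ g : ℕ → ℝ,
      ∑ e ∈ Icc 1 D, cf P D C e * gm g e = ∑ U ∈ P.powerset, C U * ∏ p ∈ U, g p := by
    intro C hC g
    apply cf_sum P hPp D C hC
    intro U hU
    unfold gm
    rw [Nat.primeFactors_prod fun p hp => hPp p (hU hp)]
  have hs1 : ∀ h : ℕ → ℝ, ∑ U ∈ P.powerset, C1 U * ∏ p ∈ U, h p =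
      (∏ p ∈ S, (1 - h p)) * ∑ W ∈ Q.powerset, Cth Pb b W * ∏ p ∈ W, h p := by
    intro h
    rw [hP, hC1d]
    exact split2 S Q hSQ (Cth Pb b) h
  have hs2 : ∀ h : ℕ → ℝ, ∑ U ∈ P.powerset, C2 U * ∏ p ∈ U, h p =
      (∏ p ∈ S, (1 - h p)) * ∑ W ∈ Q.powerset, Cdl Pb b W * ∏ p ∈ W, h p := by
    intro h
    rw [hP, hC2d]
    exact split2 S Q hSQ (Cdl Pb b) h
  refine ⟨cf P D C1, cf P D C2, hDW _ hC1a, hDW _ hC2a, ?_, ?_⟩
  · intro m
    rw [hEv _ hC1, hEv _ hC2, hs1, hs2, sum_Cth Pb b hd Q hQ, sum_Cdl Pb b hd Q hQ]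
    -- local inequalities
    set N := m.natAbs with hN
    have hy : ∀ j : Fin J, (∑ U ∈ (Pb j).powerset.filter (fun U => U.card ≤ 2 * (b + j)),
        (-1 : ℝ) ^ U.card * ∏ l ∈ U, (if l ∣ N then (1 : ℝ) else 0)) =
        ∑ U ∈ (Pb j).powerset.filter (fun U => U.card ≤ 2 * (b + j)),
          if ∀ l ∈ U, l ∣ N then ((-1 : ℝ)) ^ U.card else 0 := by
      intro j
      apply sum_congr rfl
      intro U _
      rw [Finset.prod_ite_zero]
      simp only [prod_const_one]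
      split_ifs <;> simp
    have he : ∀ j : Fin J, (∑ U ∈ (Pb j).powersetCard (2 * (b + j) + 1),
        ∏ l ∈ U, (if l ∣ N then (1 : ℝ) else 0)) =
        ∑ U ∈ (Pb j).powersetCard (2 * (b + j) + 1), if ∀ l ∈ U, l ∣ N then (1 : ℝ) else 0 := by
      intro j
      apply sum_congr rfl
      intro U _
      rw [Finset.prod_ite_zero]
      simp only [prod_const_one]
    simp only [hy, he]
    have hloc := fun j : Fin J => bh_local (Pb j) (2 * (b + j)) (even_two_mul _) N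
    have hx : xx Q m = ∏ j : Fin J, (if ∀ l ∈ Pb j, ¬ l ∣ N then (1 : ℝ) else 0) := by
      unfold xx
      rw [Finset.prod_ite_zero]
      simp only [prod_const_one]
      have : (∀ p ∈ Q, ¬ (p : ℤ) ∣ m) ↔ ∀ i ∈ (univ : Finset (Fin J)), ∀ l ∈ Pb i, ¬ l ∣ N := by
        rw [hQ]
        simp only [mem_biUnion, mem_univ, true_and, forall_exists_index, forall_true_left,
          Int.natCast_dvd]
        constructor
        · intro h i l hl
          exact h l i hl
        · intro h l i hl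
          exact h i l hl
      simp only [this]
    have hSx : ∏ p ∈ S, (1 - (if p ∣ N then (1 : ℝ) else 0)) = xx S m := by
      have e1 : ∀ p ∈ S, (1 - (if p ∣ N then (1 : ℝ) else 0)) = if ¬ p ∣ N then (1 : ℝ) else 0 := by
        intro p _
        split_ifs <;> simp
      rw [prod_congr rfl e1, Finset.prod_ite_zero]
      simp only [prod_const_one]
      unfold xx
      simp only [Int.natCast_dvd, hN]
    have hxP : xx P m = xx S m * xx Q m := by
      unfold xx
      rw [hP]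
      simp only [mem_union]
      by_cases c1 : ∀ p ∈ S, ¬ (p : ℤ) ∣ m
      · by_cases c2 : ∀ p ∈ Q, ¬ (p : ℤ) ∣ m
        · rw [if_pos c1, if_pos c2, if_pos, one_mul]
          rintro p (hp | hp)
          · exact c1 p hp
          · exact c2 p hp
        · rw [if_neg c2, if_neg, mul_zero]
          intro h
          exact c2 fun p hp => h p (Or.inr hp)
      · rw [if_neg c1, if_neg, zero_mul]
        intro h
        exact c1 fun p hp => h p (Or.inl hp)
    have hS0 : 0 ≤ xx S m := by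
      unfold xx
      split_ifs <;> norm_num
    rw [hSx, hxP, hx]
    constructor
    · apply mul_le_mul_of_nonneg_left _ hS0
      exact prod_le_prod (fun j _ => (hloc j).1) fun j _ => (hloc j).2.1
    · rw [← mul_sub]
      apply mul_le_mul_of_nonneg_left _ hS0
      exact bh_prod_sub univ _ _ _ (fun j => (hloc j).1) (fun j => (hloc j).2.1)
        fun j => (hloc j).2.2
  · intro g hg
    have hSg : 0 ≤ ∏ p ∈ S, (1 - g p) := by
      apply prod_nonneg
      intro p hp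
      have := (hg p (by rw [hP]; exact mem_union_left _ hp)).2.1
      linarith
    have hVP : ∏ p ∈ P, (1 - g p) = (∏ p ∈ S, (1 - g p)) * ∏ p ∈ Q, (1 - g p) := by
      rw [hP, prod_union hSQ]
    have hkey : |∑ W ∈ Q.powerset, Cth Pb b W * ∏ p ∈ W, g p - ∏ p ∈ Q, (1 - g p)| ≤
          3 * ρ * ∏ p ∈ Q, (1 - g p) ∧
        |∑ W ∈ Q.powerset, Cdl Pb b W * ∏ p ∈ W, g p| ≤ 3 * ρ * ∏ p ∈ Q, (1 - g p) := by
      rw [sum_Cth Pb b hd Q hQ, sum_Cdl Pb b hd Q hQ]
      set V : Fin J → ℝ := fun j => ∏ p ∈ Pb j, (1 - g p) with hV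
      set T : Fin J → ℝ := fun j => bhA g (2 * (b + j)) (Pb j) with hT
      set E : Fin J → ℝ := fun j => bhE g (2 * (b + j) + 1) (Pb j) with hE
      have hTd : ∀ j : Fin J, (∑ U ∈ (Pb j).powerset.filter (fun U => U.card ≤ 2 * (b + j)),
          (-1 : ℝ) ^ U.card * ∏ l ∈ U, g l) = T j := fun j => rfl
      have hEd : ∀ j : Fin J, (∑ U ∈ (Pb j).powersetCard (2 * (b + j) + 1),
          ∏ l ∈ U, g l) = E j := fun j => rfl
      simp only [hTd, hEd]
      have hVV : ∏ p ∈ Q, (1 - g p) = ∏ j, V j := by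
        rw [hQ, prod_biUnion]
        intro i _ j _ hij
        exact hd i j hij
      rw [hVV]
      have hPbP : ∀ j, ∀ p ∈ Pb j, p ∈ P := by
        intro j p hp
        rw [hP, hQ]
        exact mem_union_right _ (mem_biUnion.2 ⟨j, mem_univ _, hp⟩)
      have hgb : ∀ j, ∀ p ∈ Pb j, 0 ≤ g p ∧ g p ≤ 1 / 2 := by
        intro j p hp
        have hp0 : (0 : ℝ) < p := by exact_mod_cast (hprime j p hp).pos
        have hgp := hg p (hPbP j p hp)
        refine ⟨hgp.1, hgp.2.2.trans ?_⟩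
        rw [div_le_div_iff₀ hp0 (by norm_num)]
        have : ((2 * k : ℕ) : ℝ) ≤ p := by exact_mod_cast hk2 j p hp
        push_cast at this
        linarith
      have hLg : ∀ j, ∑ p ∈ Pb j, g p ≤ L := by
        intro j
        refine le_trans (sum_le_sum fun p hp => ?_) (hL j)
        exact (hg p (hPbP j p hp)).2.2
      have hbonf : ∀ j, V j ≤ T j ∧ T j ≤ V j + E j := by
        intro j
        have h := bh_bonf g (Pb j)
          (fun p hp => ⟨(hgb j p hp).1, (hgb j p hp).2.trans (by norm_num)⟩) (2 * (b + j))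
        rw [(even_two_mul _).neg_one_pow, one_mul] at h
        constructor
        · have := h.1; simp only [hV, hT]; linarith
        · have := h.2; simp only [hV, hT, hE]; linarith
      set v : ℝ := Real.exp (-(2 * L)) with hv
      have hv0 : 0 < v := Real.exp_pos _
      have hvinv : Real.exp (2 * L) = v⁻¹ := by rw [hv, Real.exp_neg, inv_inv]
      have hVv : ∀ j, v ≤ V j := by
        intro j
        have h1 : Real.exp (-(2 * ∑ l ∈ Pb j, g l)) ≤ V j := by
          have : -(2 * ∑ l ∈ Pb j, g l) = ∑ l ∈ Pb j, (-(2 * g l)) := by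
            rw [mul_sum, ← sum_neg_distrib]
          rw [this, Real.exp_sum]
          exact prod_le_prod (fun l _ => (Real.exp_pos _).le)
            fun l hl => bh_inv_ge (hgb j l hl).1 (hgb j l hl).2
        refine le_trans ?_ h1
        exact Real.exp_le_exp.2 (by linarith [hLg j])
      have hE0 : ∀ j, 0 ≤ E j := fun j => bhE_nonneg _ _ _ fun l hl => (hgb j l hl).1
      have hEle : ∀ j : Fin J, E j ≤ L ^ (2 * (b + (j : ℕ)) + 1) /
          ((2 * (b + (j : ℕ)) + 1).factorial : ℝ) := by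
        intro j
        refine (bhE_le g (Pb j) (fun l hl => (hgb j l hl).1)
          (2 * (b + j) + 1)).trans ?_
        have h0 : 0 ≤ ∑ l ∈ Pb j, g l := sum_nonneg fun l hl => (hgb j l hl).1
        have := hLg j
        gcongr
      have hsum : ∑ j, E j / v ≤ ρ := by
        refine le_trans (sum_le_sum fun j _ => ?_) hρ
        rw [hvinv, div_eq_inv_mul]
        exact mul_le_mul_of_nonneg_left (hEle j) (by positivity)
      have hV0 : ∀ j, 0 < V j := fun j => lt_of_lt_of_le hv0 (hVv j)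
      have hT0 : ∀ j, 0 < T j := fun j => lt_of_lt_of_le (hV0 j) (hbonf j).1
      have hρ0 : 0 ≤ ρ := le_trans (sum_nonneg fun j _ => div_nonneg (hE0 j) hv0.le) hsum
      have hVT : ∏ j, V j ≤ ∏ j, T j := prod_le_prod (fun j _ => (hV0 j).le) fun j _ => (hbonf j).1
      have hTV : ∏ j, T j ≤ (∏ j, V j) * Real.exp ρ := by
        have h1 : ∏ j, T j ≤ ∏ j, V j * Real.exp (E j / v) := by
          refine prod_le_prod (fun j _ => (hT0 j).le) fun j _ => ?_
          refine (hbonf j).2.trans ?_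
          have h2 := Real.add_one_le_exp (E j / v)
          have h3 : V j * (E j / v + 1) ≤ V j * Real.exp (E j / v) :=
            mul_le_mul_of_nonneg_left h2 (hV0 j).le
          refine le_trans ?_ h3
          have h4 : E j ≤ V j * (E j / v) := by
            rw [← mul_div_assoc, le_div_iff₀ hv0, mul_comm (V j)]
            exact mul_le_mul_of_nonneg_left (hVv j) (hE0 j)
          linarith
        rw [prod_mul_distrib, ← Real.exp_sum] at h1
        exact h1.trans (mul_le_mul_of_nonneg_left (Real.exp_le_exp.2 hsum)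
          (prod_nonneg fun j _ => (hV0 j).le))
      have hVp : 0 < ∏ j, V j := prod_pos fun j _ => hV0 j
      have hexp : Real.exp ρ ≤ 1 + 2 * ρ := by
        have h1 := Real.abs_exp_sub_one_sub_id_le (x := ρ) (by rw [abs_of_nonneg hρ0]; exact hρ1)
        have h2 := (abs_le.1 h1).2
        nlinarith
      constructor
      · rw [abs_le]
        constructor
        · have : 0 ≤ 3 * ρ * ∏ j, V j := by positivity
          linarith
        · have : (∏ j, V j) * Real.exp ρ ≤ (∏ j, V j) * (1 + 2 * ρ) :=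
            mul_le_mul_of_nonneg_left hexp hVp.le
          have h3 : 0 ≤ ρ * ∏ j, V j := by positivity
          nlinarith
      · have hterm : ∀ k, 0 ≤ E k * ∏ i ∈ univ.erase k, T i ∧
            E k * ∏ i ∈ univ.erase k, T i ≤ E k / v * ∏ i, T i := by
          intro k
          have h2 : 0 ≤ ∏ i ∈ univ.erase k, T i := prod_nonneg fun i _ => (hT0 i).le
          refine ⟨mul_nonneg (hE0 k) h2, ?_⟩
          have h1 : ∏ i, T i = T k * ∏ i ∈ univ.erase k, T i :=
            (mul_prod_erase univ T (mem_univ k)).symm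
          rw [h1, div_mul_eq_mul_div, le_div_iff₀ hv0]
          have h3 : v ≤ T k := (hVv k).trans (hbonf k).1
          have h4 : E k * (∏ i ∈ univ.erase k, T i) * v ≤
              E k * (∏ i ∈ univ.erase k, T i) * T k :=
            mul_le_mul_of_nonneg_left h3 (mul_nonneg (hE0 k) h2)
          linarith
        rw [abs_of_nonneg (sum_nonneg fun k _ => (hterm k).1)]
        calc ∑ k, E k * ∏ i ∈ univ.erase k, T i ≤ ∑ k, E k / v * ∏ i, T i :=
              sum_le_sum fun k _ => (hterm k).2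
          _ = (∑ k, E k / v) * ∏ i, T i := by rw [sum_mul]
          _ ≤ ρ * ((∏ j, V j) * Real.exp ρ) :=
              mul_le_mul hsum hTV (prod_nonneg fun i _ => (hT0 i).le) hρ0
          _ ≤ ρ * ((∏ j, V j) * 3) := by
              apply mul_le_mul_of_nonneg_left _ hρ0
              apply mul_le_mul_of_nonneg_left _ hVp.le
              linarith
          _ = 3 * ρ * ∏ j, V j := by ring
    rw [hhat _ hC1, hhat _ hC2, hs1, hs2, hVP]
    constructor
    · rw [← mul_sub, abs_mul, abs_of_nonneg hSg]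
      calc (∏ p ∈ S, (1 - g p)) * |∑ W ∈ Q.powerset, Cth Pb b W * ∏ p ∈ W, g p -
            ∏ p ∈ Q, (1 - g p)| ≤ (∏ p ∈ S, (1 - g p)) * (3 * ρ * ∏ p ∈ Q, (1 - g p)) :=
            mul_le_mul_of_nonneg_left hkey.1 hSg
        _ = _ := by ring
    · rw [abs_mul, abs_of_nonneg hSg]
      calc (∏ p ∈ S, (1 - g p)) * |∑ W ∈ Q.powerset, Cdl Pb b W * ∏ p ∈ W, g p| ≤
            (∏ p ∈ S, (1 - g p)) * (3 * ρ * ∏ p ∈ Q, (1 - g p)) :=
            mul_le_mul_of_nonneg_left hkey.2 hSg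
        _ = _ := by ring

theorem main : St_FLWG := by
  intro k hk η₁ A hη₁ hA
  obtain ⟨η₀, hη₀⟩ : ∃ η₀ : ℝ, η₀ = η₁ / 2 := ⟨_, rfl⟩
  have hη : 0 < η₀ := by rw [hη₀]; positivity
  obtain ⟨L1, hL10, hLb1⟩ := block_bd
  have hkR : (0 : ℝ) < k := by
    have : 0 < k := hk
    exact_mod_cast this
  obtain ⟨L, hLdef⟩ : ∃ L : ℝ, L = k * L1 := ⟨_, rfl⟩
  have hL0 : 0 < L := by rw [hLdef]; positivity
  have hLb : ∀ S : Finset ℕ, (∀ p ∈ S, p.Prime) →
      (∀ p ∈ S, ∀ q ∈ S, q < p ^ 2) → ∑ p ∈ S, (k : ℝ) / p ≤ L := by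
    intro S h1 h2
    have e : ∑ p ∈ S, (k : ℝ) / p = k * ∑ p ∈ S, (1 : ℝ) / p := by
      rw [mul_sum]
      apply sum_congr rfl
      intro p _
      rw [mul_one_div]
    rw [e, hLdef]
    exact mul_le_mul_of_nonneg_left (hLb1 S h1 h2) hkR.le
  set s : ℝ := (A + 1) / (η₀ / 4) with hs
  have hs0 : 0 < s := by positivity
  have hsc : s * (η₀ / 4) = A + 1 := by rw [hs]; field_simp
  set X0 : ℝ := 1 + 16 / η₀ + (Real.log 3 + 2 * L + L * Real.exp s) with hX0
  have hlog3 : 0 < Real.log 3 := Real.log_pos (by norm_num)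
  have hX1 : 1 ≤ X0 := by
    rw [hX0]
    have : 0 < 16 / η₀ := by positivity
    have : 0 < L * Real.exp s := by positivity
    linarith
  have hX0p : 0 < X0 := by linarith
  refine ⟨1 / X0, by positivity, ?_⟩
  intro ε hε hεX
  set x : ℝ := 1 / ε with hx
  have hx0 : 0 < x := by positivity
  have hxε : x * ε = 1 := by rw [hx]; field_simp
  have hxX : X0 ≤ x := by
    rw [hx, le_div_iff₀ hε]
    rw [le_div_iff₀ hX0p] at hεX
    linarith
  have hε1 : ε ≤ 1 := by
    rw [le_div_iff₀ hX0p] at hεX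
    nlinarith
  have hηx : 16 ≤ η₀ * x := by
    have h1 : 16 / η₀ ≤ x := by
      have : 0 < L * Real.exp s := by positivity
      rw [hX0] at hxX
      linarith
    rw [div_le_iff₀ hη] at h1
    linarith
  have hxL : Real.log 3 + 2 * L + L * Real.exp s ≤ x := by
    have : 0 < 16 / η₀ := by positivity
    rw [hX0] at hxX
    linarith
  set b : ℕ := ⌊(η₀ * x - 6) / 4⌋₊ with hb
  have hb1 : (b : ℝ) ≤ (η₀ * x - 6) / 4 := Nat.floor_le (by linarith)
  have hb2 : (η₀ * x - 6) / 4 < b + 1 := Nat.lt_floor_add_one _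
  have hb3 : η₀ / 4 * x ≤ 2 * b + 1 := by linarith
  have hb4 : (4 * b + 6) * ε ≤ η₀ := by
    have h1 : (4 * b + 6 : ℝ) ≤ η₀ * x := by linarith
    calc (4 * b + 6) * ε ≤ η₀ * x * ε := mul_le_mul_of_nonneg_right h1 hε.le
      _ = η₀ := by rw [mul_assoc, hxε, mul_one]
  obtain ⟨w, hw⟩ : ∃ w : ℕ, w = 2 * k + 3 := ⟨_, rfl⟩
  obtain ⟨W0, hW0⟩ : ∃ W0 : ℕ, W0 = ∏ i ∈ Icc 1 w, i := ⟨_, rfl⟩
  refine ⟨⌈Real.exp (Real.exp 1)⌉₊ + ⌈(W0 : ℝ) ^ (1 / η₀)⌉₊ + 1, ?_⟩
  intro N hN D0 hD0 P0' hPsub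
  obtain ⟨D, hD⟩ : ∃ D : ℕ, D = ⌊(N : ℝ) ^ η₀⌋₊ := ⟨_, rfl⟩
  obtain ⟨P, hPd⟩ : ∃ P : Finset ℕ, P = P0'.filter (fun p => w ≤ p) := ⟨_, rfl⟩
  obtain ⟨S, hSd⟩ : ∃ S : Finset ℕ, S = P0'.filter (fun p => ¬ w ≤ p) := ⟨_, rfl⟩
  have hSP : Disjoint S P := by
    rw [hSd, hPd]
    exact (disjoint_filter_filter_not _ _ _).symm
  have hSPu : P0' = S ∪ P := by
    rw [hSd, hPd, union_comm]
    exact (filter_union_filter_not_eq _ _).symm
  have hNe : Real.exp (Real.exp 1) ≤ N := by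
    have h1 := Nat.le_ceil (Real.exp (Real.exp 1))
    have h2 : ((⌈Real.exp (Real.exp 1)⌉₊ + ⌈(W0 : ℝ) ^ (1 / η₀)⌉₊ + 1 : ℕ) : ℝ) ≤ N := by exact_mod_cast hN
    push_cast at h2
    have h3 : (0 : ℝ) ≤ (⌈(W0 : ℝ) ^ (1 / η₀)⌉₊ : ℝ) := Nat.cast_nonneg _
    linarith
  have hN0 : (0 : ℝ) < N := lt_of_lt_of_le (Real.exp_pos _) hNe
  have hlogN : Real.exp 1 ≤ Real.log N := by
    rw [Real.le_log_iff_exp_le hN0]
    exact hNe
  have he2 : (2 : ℝ) ≤ Real.exp 1 := by
    have := Real.add_one_le_exp (1 : ℝ)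
    linarith
  have hlog2 : 2 ≤ Real.log N := he2.trans hlogN
  have hlog0 : 0 < Real.log N := by linarith
  have hloglog : 1 ≤ Real.log (Real.log N) := by
    rw [Real.le_log_iff_exp_le hlog0]
    exact hlogN
  have hWN : (W0 : ℝ) ≤ (N : ℝ) ^ η₀ := by
    have h1 := Nat.le_ceil ((W0 : ℝ) ^ (1 / η₀))
    have h2 : ((⌈Real.exp (Real.exp 1)⌉₊ + ⌈(W0 : ℝ) ^ (1 / η₀)⌉₊ + 1 : ℕ) : ℝ) ≤ N := by exact_mod_cast hN
    push_cast at h2
    have h3 : (0 : ℝ) ≤ (⌈Real.exp (Real.exp 1)⌉₊ : ℝ) := Nat.cast_nonneg _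
    have h4 : (W0 : ℝ) ^ (1 / η₀) ≤ N := by linarith
    have h5 : (0 : ℝ) ≤ W0 := Nat.cast_nonneg _
    calc (W0 : ℝ) = ((W0 : ℝ) ^ (1 / η₀)) ^ η₀ := by
          rw [← Real.rpow_mul h5, one_div, inv_mul_cancel₀ hη.ne', Real.rpow_one]
      _ ≤ (N : ℝ) ^ η₀ := Real.rpow_le_rpow (by positivity) h4 hη.le
  have hP0mem : ∀ p, p ∈ P0' → (1 ≤ p ∧ p ≤ N) ∧ p.Prime ∧ tt N p < ε := by
    intro p hp
    have := hPsub hp
    unfold P0 at this
    rw [mem_filter, mem_Icc] at this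
    exact this
  have hPmem : ∀ p, p ∈ P → (1 ≤ p ∧ p ≤ N) ∧ p.Prime ∧ 1 ≤ Real.log p ∧ tt N p < ε ∧ 2 * k ≤ p := by
    intro p hp
    rw [hPd, mem_filter] at hp
    have h0 := hP0mem p hp.1
    have h3 : 3 ≤ p := by omega
    have h3' : (3 : ℝ) ≤ p := by exact_mod_cast h3
    refine ⟨h0.1, h0.2.1, ?_, h0.2.2, by omega⟩
    rw [Real.le_log_iff_exp_le (by linarith)]
    have := Real.exp_one_lt_d9
    linarith
  have hSprod : ∏ p ∈ S, p ≤ W0 := by
    rw [hW0]
    apply prod_le_prod_of_subset_of_one_le'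
    · intro p hp
      rw [hSd, mem_filter] at hp
      have h0 := hP0mem p hp.1
      rw [mem_Icc]
      omega
    · intro p hp _
      exact (mem_Icc.1 hp).1
  have hDD : (∏ p ∈ S, p) * D ≤ D0 := by
    rw [hD0]
    apply Nat.le_floor
    push_cast
    have h1 : ((∏ p ∈ S, (p : ℝ))) ≤ W0 := by
      have : ((∏ p ∈ S, p : ℕ) : ℝ) ≤ W0 := by exact_mod_cast hSprod
      push_cast at this
      exact this
    have h2 : (D : ℝ) ≤ (N : ℝ) ^ η₀ := by
      rw [hD]
      exact Nat.floor_le (by positivity)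
    have h3 : (N : ℝ) ^ η₁ = (N : ℝ) ^ η₀ * (N : ℝ) ^ η₀ := by
      rw [← Real.rpow_add hN0]
      congr 1
      rw [hη₀]
      ring
    rw [h3]
    exact mul_le_mul (h1.trans hWN) h2 (Nat.cast_nonneg _) (by positivity)
  set J : ℕ := ⌊Real.log N⌋₊ with hJ
  have hJN : (J : ℝ) ≤ Real.log N := Nat.floor_le hlog0.le
  have hJ2 : Real.log N < J + 1 := Nat.lt_floor_add_one _
  have hpowJ : Real.log N ≤ 2 ^ J := by
    have h1 : J + 1 ≤ 2 ^ J := Nat.lt_two_pow_self
    have h2 : ((J : ℝ) + 1) ≤ 2 ^ J := by exact_mod_cast h1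
    linarith
  have htt : ∀ p ∈ P, ε * (1 / 2) ^ J ≤ tt N p := by
    intro p hp0
    have hp := hPmem p hp0
    have h2 : 1 ≤ Real.log p := hp.2.2.1
    unfold tt
    rw [le_div_iff₀ hlog0]
    have h3 : (1 / 2 : ℝ) ^ J * Real.log N ≤ 1 := by
      rw [one_div, inv_pow, inv_mul_le_iff₀ (by positivity)]
      linarith
    have h4 : 0 ≤ (1 / 2 : ℝ) ^ J * Real.log N := by positivity
    calc ε * (1 / 2) ^ J * Real.log N = ε * ((1 / 2) ^ J * Real.log N) := by ring
      _ ≤ 1 * 1 := mul_le_mul hε1 h3 h4 (by norm_num)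
      _ ≤ Real.log p := by linarith
  have hJ1 : 1 ≤ J := by
    rw [hJ]
    exact Nat.le_floor (by push_cast; linarith)
  set Pb : Fin J → Finset ℕ := fun j => blk N ε P j with hPb
  have hmono : ∀ i j : ℕ, i ≤ j → ε * (1 / 2 : ℝ) ^ j ≤ ε * (1 / 2) ^ i := by
    intro i j hij
    apply mul_le_mul_of_nonneg_left _ hε.le
    exact pow_le_pow_of_le_one (by norm_num) (by norm_num) hij
  have hdisj0 : ∀ i j : ℕ, i < j → Disjoint (blk N ε P i) (blk N ε P j) := by
    intro i j hij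
    rw [disjoint_left]
    intro p hi hj
    rw [mem_blk] at hi hj
    have := hmono (i + 1) j hij
    linarith [hi.2.1, hj.2.2]
  have hdisj : ∀ i j, i ≠ j → Disjoint (Pb i) (Pb j) := by
    intro i j hij
    rcases lt_or_gt_of_ne (fun h => hij (Fin.ext h) : (i : ℕ) ≠ j) with h | h
    · exact hdisj0 i j h
    · exact (hdisj0 j i h).symm
  have hcover : P = univ.biUnion Pb := by
    ext p
    rw [mem_biUnion]
    constructor
    · intro hp
      have hex : ∃ j : ℕ, ε * (1 / 2) ^ (j + 1) ≤ tt N p := ⟨J - 1, by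
        have : J - 1 + 1 = J := by omega
        rw [this]; exact htt p hp⟩
      classical
      have h1 := Nat.find_spec hex
      have h2 : Nat.find hex ≤ J - 1 := Nat.find_min' hex (by
        have : J - 1 + 1 = J := by omega
        rw [this]; exact htt p hp)
      refine ⟨⟨Nat.find hex, by omega⟩, mem_univ _, ?_⟩
      simp only [hPb]
      rw [mem_blk]
      refine ⟨hp, h1, ?_⟩
      by_cases h0 : Nat.find hex = 0
      · rw [h0, pow_zero, mul_one]
        exact (hPmem p hp).2.2.2.1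
      · have h3 := Nat.find_min hex (m := Nat.find hex - 1) (by omega)
        have h4 : Nat.find hex - 1 + 1 = Nat.find hex := by omega
        rw [h4] at h3
        push Not at h3
        exact h3
    · rintro ⟨j, -, hj⟩
      simp only [hPb] at hj
      exact (mem_blk.1 hj).1
  have hprime : ∀ j, ∀ p ∈ Pb j, p.Prime := by
    intro j p hp
    exact (hPmem p (mem_blk.1 hp).1).2.1
  have hk2 : ∀ j, ∀ p ∈ Pb j, 2 * k ≤ p := by
    intro j p hp
    exact (hPmem p (mem_blk.1 hp).1).2.2.2.2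
  have hLj : ∀ j, ∑ p ∈ Pb j, (k : ℝ) / p ≤ L := by
    intro j
    apply hLb _ (hprime j)
    intro p hp q hq
    have h1 := (mem_blk.1 hp).2.1
    have h2 := (mem_blk.1 hq).2.2
    have h3 : tt N q < 2 * tt N p := by
      rw [pow_succ] at h1
      linarith
    unfold tt at h3
    rw [← mul_div_assoc, div_lt_div_iff_of_pos_right hlog0] at h3
    have hp0 : (0 : ℝ) < p := by exact_mod_cast (hprime j p hp).pos
    have hq0 : (0 : ℝ) < q := by exact_mod_cast (hprime j q hq).pos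
    have h4 : Real.log q < Real.log ((p : ℝ) ^ 2) := by
      rw [Real.log_pow]
      push_cast
      exact h3
    have h5 : (q : ℝ) < (p : ℝ) ^ 2 := (Real.log_lt_log_iff hq0 (by positivity)).1 h4
    exact_mod_cast h5
  have hlevel : ∀ U ⊆ P, (∀ j : Fin J, (U ∩ Pb j).card ≤ 2 * (b + j) + 1) →
      ∏ p ∈ U, p ≤ D := by
    intro U hU hc
    have hUpos : ∀ p ∈ U, (0 : ℝ) < p := fun p hp => by
      exact_mod_cast (hPmem p (hU hp)).2.1.pos
    have hsplit : U = univ.biUnion fun j => U ∩ Pb j := by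
      ext p
      rw [mem_biUnion]
      constructor
      · intro hp
        have := hU hp
        rw [hcover, mem_biUnion] at this
        obtain ⟨j, hj, hpj⟩ := this
        exact ⟨j, hj, mem_inter.2 ⟨hp, hpj⟩⟩
      · rintro ⟨j, -, hj⟩
        exact (mem_inter.1 hj).1
    have hlogU : ∑ p ∈ U, Real.log p ≤ η₀ * Real.log N := by
      calc ∑ p ∈ U, Real.log p = ∑ j : Fin J, ∑ p ∈ U ∩ Pb j, Real.log p := by
            conv_lhs => rw [hsplit]
            rw [sum_biUnion]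
            intro i _ j _ hij
            exact disjoint_of_subset_left inter_subset_right
              (disjoint_of_subset_right inter_subset_right (hdisj i j hij))
        _ ≤ ∑ j : Fin J, (2 * ((b : ℝ) + (j : ℕ)) + 1) * (1 / 2 : ℝ) ^ (j : ℕ) *
              (ε * Real.log N) := by
            apply sum_le_sum
            intro j _
            calc ∑ p ∈ U ∩ Pb j, Real.log p ≤
                ∑ p ∈ U ∩ Pb j, ε * (1 / 2) ^ (j : ℕ) * Real.log N := by
                  apply sum_le_sum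
                  intro p hp
                  have h1 := (mem_blk.1 (mem_inter.1 hp).2).2.2
                  unfold tt at h1
                  rw [div_lt_iff₀ hlog0] at h1
                  exact h1.le
              _ = ((U ∩ Pb j).card : ℝ) * (ε * (1 / 2) ^ (j : ℕ) * Real.log N) := by
                  rw [sum_const, nsmul_eq_mul]
              _ ≤ (2 * ((b : ℝ) + (j : ℕ)) + 1) * (ε * (1 / 2) ^ (j : ℕ) * Real.log N) := by
                  apply mul_le_mul_of_nonneg_right _ (by positivity)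
                  exact_mod_cast hc j
              _ = _ := by ring
        _ = (4 * b + 6 - (4 * J + 4 * b + 6) * (1 / 2 : ℝ) ^ J) * (ε * Real.log N) := by
            rw [← sum_mul, Fin.sum_univ_eq_sum_range
              (fun j => (2 * ((b : ℝ) + (j : ℕ)) + 1) * (1 / 2 : ℝ) ^ j), geo_sum]
        _ ≤ (4 * b + 6) * (ε * Real.log N) := by
            apply mul_le_mul_of_nonneg_right _ (by positivity)
            have : 0 ≤ (4 * (J : ℝ) + 4 * b + 6) * (1 / 2 : ℝ) ^ J := by positivity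
            linarith
        _ = (4 * b + 6) * ε * Real.log N := by ring
        _ ≤ η₀ * Real.log N := mul_le_mul_of_nonneg_right hb4 hlog0.le
    rw [hD]
    apply Nat.le_floor
    push_cast
    rw [← Real.log_le_log_iff (prod_pos hUpos) (Real.rpow_pos_of_pos hN0 _),
      Real.log_rpow hN0, Real.log_prod (fun p hp => (hUpos p hp).ne')]
    exact hlogU
  have hρ : ∑ j : Fin J, Real.exp (2 * L) *
      (L ^ (2 * (b + (j : ℕ)) + 1) / ((2 * (b + (j : ℕ)) + 1).factorial : ℝ)) ≤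
      Real.exp (-(A / ε)) / 3 := by
    rw [← mul_sum, Fin.sum_univ_eq_sum_range
      (fun j => L ^ (2 * (b + j) + 1) / ((2 * (b + j) + 1).factorial : ℝ))]
    have h1 := tail_sum L s hL0 hs0.le b J
    have h2 := mul_le_mul_of_nonneg_left h1 (Real.exp_pos (2 * L)).le
    refine h2.trans ?_
    rw [le_div_iff₀ (by norm_num : (0 : ℝ) < 3), ← Real.exp_add]
    have h3 : (3 : ℝ) = Real.exp (Real.log 3) := (Real.exp_log (by norm_num)).symm
    rw [h3, ← Real.exp_add]
    apply Real.exp_le_exp.2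
    have h4 : A / ε = A * x := by rw [hx]; ring
    rw [h4]
    have h5 : (A + 1) * x ≤ s * (2 * b + 1) := by
      have := mul_le_mul_of_nonneg_left hb3 hs0.le
      calc (A + 1) * x = s * (η₀ / 4 * x) := by rw [← hsc]; ring
        _ ≤ _ := this
    linarith
  have hρ1 : Real.exp (-(A / ε)) / 3 ≤ 1 := by
    have h1 : Real.exp (-(A / ε)) ≤ 1 := by
      apply Real.exp_le_one_iff.2
      have : 0 < A / ε := by positivity
      linarith
    linarith
  have hSp : ∀ p ∈ S, p.Prime := by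
    intro p hp
    rw [hSd, mem_filter] at hp
    exact (hP0mem p hp.1).2.1
  obtain ⟨th, dl, h1, h2, h3, h4⟩ := core Pb b hdisj S P P0' hcover hSP hSPu hSp k hk2 hprime L hLj
    D0 D hDD hlevel (Real.exp (-(A / ε)) / 3) hρ1 hρ (Real.log N) (by linarith) hJN
  refine ⟨th, dl, h1, h2, h3, ?_⟩
  have h5 : 3 * (Real.exp (-(A / ε)) / 3) = Real.exp (-(A / ε)) := by ring
  rw [h5] at h4
  exact h4



end Pool.Agent.W85.PP.FG

namespace Pool.Agent.W85.PP

/-- **FLWG** -/
theorem FLWG : Pool.Agent.W23.PP.St_FLWG := FG.main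

end Pool.Agent.W85.PP
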